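import Mathlib

namespace Pool.Agent.Results.MP_03cbb9_co.Counter

/-- G has a neighbor-locating colouring with k colours. -/
def HasNL {V : Type} (G : SimpleGraph V) (k : ℕ) : Prop :=
  ∃ c : V → Fin k, (∀ u v, G.Adj u v → c u ≠ c v) ∧
    ∀ u v, u ≠ v → c u = c v → c '' G.neighborSet u ≠ c '' G.neighborSet v

/-- the Mycielski graph: some (inl u) is u, some (inr u) is its copy, none is w. -/
def myc {V : Type} (G : SimpleGraph V) : SimpleGraph (Option (V ⊕ V)) :=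
  SimpleGraph.fromRel (fun a b => match a, b with
    | some (Sum.inl u), some (Sum.inl v) => G.Adj u v
    | some (Sum.inr u), some (Sum.inl v) => G.Adj u v
    | none, some (Sum.inr _) => True
    | _, _ => False)

def adj (a b : ℕ) : Bool :=
  [(0,1),(0,3),(2,4),(1,5),(2,5),(3,5),(4,5),(1,6),(3,6)].any
    (fun p => (p.1 == a && p.2 == b) || (p.1 == b && p.2 == a))

def G0 : SimpleGraph (Fin 7) where
  Adj a b := adj a.val b.val = true
  symm := ⟨by decide +kernel⟩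
  loopless := ⟨by decide +kernel⟩

instance : DecidableRel G0.Adj := fun a b => inferInstanceAs (Decidable (adj a.val b.val = true))

instance : DecidableRel (myc G0).Adj := fun a b => by
  unfold myc
  rw [SimpleGraph.fromRel_adj]
  rcases a with _ | a | a <;> rcases b with _ | b | b <;> infer_instance

lemma iff_nl {V : Type} (G : SimpleGraph V) {k : ℕ} (c : V → Fin k) (u v : V) :
    c '' G.neighborSet u ≠ c '' G.neighborSet v ↔
      ¬ ∀ x, (∃ a, G.Adj u a ∧ c a = x) ↔ (∃ a, G.Adj v a ∧ c a = x) := by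
  rw [ne_eq, Set.ext_iff]
  rfl

lemma nl5 : HasNL G0 5 := by
  refine ⟨![0, 1, 0, 2, 1, 3, 4], by decide +kernel, ?_⟩
  simp only [iff_nl]
  decide +kernel

lemma mnl5 : HasNL (myc G0) 5 := by
  refine ⟨fun a => match a with
    | none => 0
    | some (Sum.inl u) => ![0, 2, 1, 3, 3, 0, 4] u
    | some (Sum.inr u) => ![1, 1, 2, 2, 4, 4, 4] u, by decide +kernel, ?_⟩
  simp only [iff_nl]
  decide +kernel

def good (c : Fin 7 → Fin 4) : Bool :=
  decide (∀ u v : Fin 7, u ≠ v → c u = c v →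
    ¬ ∀ x, (∃ a, G0.Adj u a ∧ c a = x) ↔ (∃ a, G0.Adj v a ∧ c a = x))

lemma key (a0 a1 : Fin 4) : ∀ a3 a5 : Fin 4, a0 ≠ a1 ∧ a0 ≠ a3 ∧ a1 ≠ a5 ∧ a3 ≠ a5 →
    ∀ a6 a2 a4 : Fin 4, a1 ≠ a6 ∧ a3 ≠ a6 ∧ a2 ≠ a5 ∧ a2 ≠ a4 ∧ a4 ≠ a5 →
      good ![a0, a1, a2, a3, a4, a5, a6] = false := by
  revert a0 a1
  decide +kernel

lemma not4 : ¬ HasNL G0 4 := by
  rintro ⟨c, h1, h2⟩
  simp only [iff_nl] at h2
  have e : ![c 0, c 1, c 2, c 3, c 4, c 5, c 6] = c := by
    funext i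
    fin_cases i <;> rfl
  have := key (c 0) (c 1) (c 3) (c 5) ⟨h1 _ _ (by decide), h1 _ _ (by decide), h1 _ _ (by decide),
    h1 _ _ (by decide)⟩ (c 6) (c 2) (c 4) ⟨h1 _ _ (by decide), h1 _ _ (by decide),
    h1 _ _ (by decide), h1 _ _ (by decide), h1 _ _ (by decide)⟩
  rw [e, good, decide_eq_false_iff_not] at this
  exact this h2

lemma mono {V : Type} (G : SimpleGraph V) {k l : ℕ} (h : k ≤ l) : HasNL G k → HasNL G l := by
  rintro ⟨c, h1, h2⟩
  have hi := Fin.castLE_injective h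
  refine ⟨Fin.castLE h ∘ c, fun u v huv e => h1 u v huv (hi e), fun u v huv e e2 => ?_⟩
  rw [Set.image_comp, Set.image_comp] at e2
  exact h2 u v huv (hi e) (Set.image_injective.mpr hi e2)

theorem result : ∃ (n : ℕ) (G : SimpleGraph (Fin n)) (k : ℕ), G.Connected ∧
    IsLeast {j | HasNL G j} k ∧ HasNL (myc G) k := by
  refine ⟨7, G0, 5, by decide +kernel, ⟨nl5, fun j hj => ?_⟩, mnl5⟩
  by_contra h
  exact not4 (mono G0 (by omega) hj)

end Pool.Agent.Results.MP_03cbb9_co.Counter
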